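import Pool.Agent.J6H10.PF.Main

/-!
# Perfect sets and pairs of consecutive prime gaps of record size

Let `f(x) = log x (log₂ x)² log₄ x / (log₃ x)²`, the size of the largest gaps between consecutive primes that are
known to occur up to `x`, and let `L ⊆ ℝ²` be the set of the limit points of the pairs of consecutive gaps divided by
`f`. EVERY nonempty perfect set `P` of reals (for instance a Cantor set of dimension zero) contains a nonempty perfect
set `Q` such that `(y - x, z - y)` and `(z - y, y - x)` are in `L` for ALL `x < y < z` in `Q` (theorem `reals`).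

The general theorem: let `P` be a nonempty perfect set in any complete metric space and let `φ_s` be countably many
real functions, continuous, and injective on `P`. There is a nonempty compact perfect set `Q ⊆ P` such that for all `s`
and all points `x, y, z` of `Q` which are close to each other, with `φ_s(x) < φ_s(y) < φ_s(z)`, the pair
`(φ_s(y) - φ_s(x), φ_s(z) - φ_s(y))` is a limit point of the pairs of consecutive gaps divided by `H_s`; here `H_s` is
any slowly varying scale with `log x ≤ H_s(x) = O(f(x))`, and the three primes are in a given residue class.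

The starting results have homogeneous SEQUENCES (`MP_3bc45c_nt.LimitPointSubsequences`, `MP_028722_nt.RecordSumSystem`)
and open sets of limit points (`MP_69be96_nt.InteriorLimitPoints`), which say nothing about the distances in an
arbitrary perfect set. Here the homogeneous sets are uncountable.

Proof. By the coloured Maynard-Tao theorem in the record windows (`Pool.Agent.W126.RecSum.lpH` of the starting files)
the closed relation `E(x, y, z)`: `(φ(y) - φ(x), φ(z) - φ(y)) ∈ L`, holds for some triple of any `K` points. Call a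
sequence of `r` open sets and a last one a bad comb if `E` fails for all triples of points in three different sets; so
`r < K`. In the last set of a maximal bad comb every pair `y, z` satisfies `E(x, y, z)` for all points `x` of one of the
`r` other sets, the same set for all pairs of a perfect set `B`, by the Baire category theorem (in the form of a fusion).
This gives perfect sets `A < B` such that `E(x, y, z)` for all `x ∈ A` and `y < z` in `B`. The fusion of such pairs gives
a perfect set with `E(x, y, z)` for all triples with `z` closer to `y` than `x`, and a second, reflected fusion inside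
this set gives all triples.
-/

open Filter Topology

set_option autoImplicit false

namespace Pool.Agent.Results.MP_028722_nt.PerfectSetsOfGaps

/-- The record scale `f(x) = log x (log₂ x)² log₄ x / (log₃ x)²` (iterated natural logarithms). -/
noncomputable def f (x : ℝ) : ℝ :=
  Real.log x * (Real.log (Real.log x)) ^ 2 * Real.log (Real.log (Real.log (Real.log x))) /
    (Real.log (Real.log (Real.log x))) ^ 2

/-- The set of the vectors `v ∈ ℝ^m` such that for every `ε > 0` there are infinitely many `n` with
`p_(n+i) ≡ r (mod q)` for `0 ≤ i ≤ m` and `|(p_(n+i+1) - p_(n+i)) / H(p_n) - v i| < ε` for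
`0 ≤ i < m` (`p_n` is the prime with index `n`): the limit points of the vectors of `m` consecutive
gaps divided by `H`, along blocks of `m + 1` consecutive primes in the class `r` modulo `q`. -/
def LimitPoints (H : ℝ → ℝ) (m q r : ℕ) : Set (Fin m → ℝ) :=
  {v | ∀ ε : ℝ, 0 < ε → ∃ᶠ n : ℕ in atTop,
    (∀ i ≤ m, Nat.nth Nat.Prime (n + i) ≡ r [MOD q]) ∧
    ∀ i : Fin m, |((Nat.nth Nat.Prime (n + i + 1) : ℝ) - Nat.nth Nat.Prime (n + i)) /
      H (Nat.nth Nat.Prime n) - v i| < ε}

/-- Let `P` be a nonempty perfect set in a complete metric space `X`. For every index `s` let `φ s : X → ℝ` be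
continuous, and injective on `P`, let `H s` be slowly varying with `log x ≤ H s x = O(f x)`, `q s` a squarefree modulus
and `r s` a residue prime to it. There is a nonempty compact perfect set `Q ⊆ P` such that for every `s` there is
`δ > 0` with: for all `x, y, z` in `Q` at distance less than `δ` from each other, with `φ s x < φ s y < φ s z`, the
pair `(φ s y - φ s x, φ s z - φ s y)` is a limit point of the pairs of consecutive prime gaps divided by `H s`, along
the primes `≡ r s (mod q s)`. -/
theorem result {X : Type} [MetricSpace X] [CompleteSpace X] (P : Set X) (hP : Perfect P)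
    (hne : P.Nonempty) (φ : ℕ → X → ℝ) (hφ : ∀ s, Continuous (φ s)) (hi : ∀ s, Set.InjOn (φ s) P)
    (H : ℕ → ℝ → ℝ) (hlow : ∀ s, ∀ᶠ x : ℝ in atTop, Real.log x ≤ H s x)
    (hslow : ∀ s, ∀ ε : ℝ, 0 < ε → ∀ᶠ x : ℝ in atTop, ∀ t : ℝ, x ≤ t → t ≤ 4 * x →
      |H s x / H s t - 1| < ε)
    (hup : ∀ s, ∃ C : ℝ, ∀ᶠ x : ℝ in atTop, H s x ≤ C * f x)
    (q r : ℕ → ℕ) (hq : ∀ s, Squarefree (q s)) (hr : ∀ s, (r s).Coprime (q s)) :
    ∃ Q ⊆ P, Perfect Q ∧ Q.Nonempty ∧ IsCompact Q ∧ ∀ s, ∃ δ : ℝ, 0 < δ ∧
      ∀ x ∈ Q, ∀ y ∈ Q, ∀ z ∈ Q, dist x y < δ → dist y z < δ → dist x z < δ →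
        φ s x < φ s y → φ s y < φ s z →
        ![φ s y - φ s x, φ s z - φ s y] ∈ LimitPoints (H s) 2 (q s) (r s) :=
  Pool.Agent.J6H10.PF.mainG ⟨hP, hne⟩ φ hφ hi H (fun s => ⟨hlow s, hslow s⟩) hup q r hq hr

/-- Every nonempty perfect set `P` of reals contains a nonempty perfect set `Q` such that `(y - x, z - y)` and
`(z - y, y - x)` are limit points of `((p_(n+1) - p_n) / f(p_n), (p_(n+2) - p_(n+1)) / f(p_n))` for all `x < y < z`
in `Q`. -/
theorem reals (P : Set ℝ) (hP : Perfect P) (hne : P.Nonempty) :
    ∃ Q ⊆ P, Perfect Q ∧ Q.Nonempty ∧ ∀ x ∈ Q, ∀ y ∈ Q, ∀ z ∈ Q, x < y → y < z →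
      ![y - x, z - y] ∈ LimitPoints f 2 1 1 ∧ ![z - y, y - x] ∈ LimitPoints f 2 1 1 := by
  obtain ⟨Q, h1, h2, h3, -, h4⟩ := result P hP hne (fun s => if s = 0 then fun x => x else fun x => -x)
    (fun s => by
      split_ifs
      · exact continuous_id
      · exact continuous_neg)
    (fun s => by
      split_ifs
      · exact fun x _ y _ h => h
      · exact fun x _ y _ h => neg_injective h)
    (fun _ => f) (fun _ => by
      filter_upwards [Pool.Agent.H672R3.InfRec.scale_ev 1 one_pos] with x hx
      rw [one_mul] at hx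
      exact hx) (fun _ ε hε => Pool.Agent.H312R2.RG.C3.ff_slow ε hε)
    (fun _ => ⟨1, Eventually.of_forall fun x => by rw [one_mul]⟩) (fun _ => 1) (fun _ => 1)
    (fun _ => squarefree_one) (fun _ => Nat.coprime_one_right 1)
  obtain ⟨δ, hδ, h5⟩ := h4 0
  obtain ⟨δ', hδ', h6⟩ := h4 1
  rw [if_pos rfl] at h5
  rw [if_neg one_ne_zero] at h6
  obtain ⟨a, ha⟩ := h3
  obtain ⟨Q', h7, h8, h9, -⟩ := Pool.Agent.J6H10.PF.piece (Q := Q) ⟨h2, a, ha⟩
    (U := Metric.ball a (min δ δ' / 2)) Metric.isOpen_ball ha (Metric.mem_ball_self (by positivity))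
  have hd : ∀ x ∈ Q', ∀ y ∈ Q', dist x y < min δ δ' := by
    intro x hx y hy
    have e1 := Metric.mem_ball.1 (h9 hx)
    have e2 := Metric.mem_ball.1 (h9 hy)
    calc dist x y ≤ dist x a + dist y a := dist_triangle_right _ _ _
      _ < min δ δ' / 2 + min δ δ' / 2 := add_lt_add e1 e2
      _ = min δ δ' := by ring
  refine ⟨Q', h7.trans h1, h8.1, h8.2, fun x hx y hy z hz hxy hyz => ⟨?_, ?_⟩⟩
  · exact h5 x (h7 hx) y (h7 hy) z (h7 hz) ((hd x hx y hy).trans_le (min_le_left _ _))
      ((hd y hy z hz).trans_le (min_le_left _ _)) ((hd x hx z hz).trans_le (min_le_left _ _)) hxy hyz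
  · have h := h6 z (h7 hz) y (h7 hy) x (h7 hx) ((hd z hz y hy).trans_le (min_le_right _ _))
      ((hd y hy x hx).trans_le (min_le_right _ _)) ((hd z hz x hx).trans_le (min_le_right _ _))
      (neg_lt_neg hyz) (neg_lt_neg hxy)
    convert h using 2
    · ring
    · ring_nf

end Pool.Agent.Results.MP_028722_nt.PerfectSetsOfGaps
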