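import Pool.Agent.J6H13.RW.Fin

/-!
# An explicit proportion of all patterns are the exact patterns of the primes between two record gaps

Let `f(x) = log x (log₂ x)² log₄ x / (log₃ x)²`, the order of the largest gaps between consecutive primes that
are known to occur. There are absolute constants `c > 0` and `C` such that for every `k` the following holds for
EVERY sufficiently large finite set `V` of natural numbers: for some `s` between `k` and `C k` at least the proportion
`(c P / s) ^ s` of the `s`-element subsets `S` of `V` are such that for infinitely many `n ≡ a (mod q)` the primes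
at distance at most `δ f(n)` from `n` are exactly the numbers `n + q y`, `y ∈ S`. Here `P` is the product of
`1 - 1 / p` over the primes `p ≤ s` which do not divide the squarefree number `q`.

Proof. (1) A Maynard-Tao theorem inside the windows of the record sieve with arbitrary weights for the pairs
(`Pool.Agent.J6H13.RW.stRW`): for `2 ^ B` positions, which have to be primes, and weights `w i j ≥ 0` of total sum at
most `4 ^ B / (C B)` there are windows in which all primes are at the positions and the number of the primes exceeds
the sum of the weights of the pairs of primes by `c B`. The weights forbid more than `C k` primes and two primes in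
the same class. (2) The positions are found by a first application of the (coloured) Maynard-Tao theorem. (3) Erdős'
box lemma: if fewer sets `S` had the property, there would be `M ≤ C k ^ 2` large classes of elements of `V` without
such an `S` with elements of different classes.
-/

set_option autoImplicit false

open Finset Filter

namespace Pool.Agent.Results.MP_028722_nt.ProportionOfIsolatedPatterns

/-- the record scale `f(x) = log x (log₂ x)² log₄ x / (log₃ x)²` -/
noncomputable def f (x : ℝ) : ℝ :=
  Real.log x * (Real.log (Real.log x)) ^ 2 * Real.log (Real.log (Real.log (Real.log x))) /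
    (Real.log (Real.log (Real.log x))) ^ 2

/-- for infinitely many `n ≡ a (mod q)` the primes at distance at most `δ f(n)` from `n` are exactly the numbers
`n + q s`, `s ∈ S` -/
def Isolated (δ : ℝ) (q a : ℕ) (S : Finset ℕ) : Prop :=
  ∃ᶠ n : ℕ in atTop, n ≡ a [MOD q] ∧
    ∀ y : ℤ, |(y : ℝ)| ≤ δ * f n → (((n : ℤ) + y).toNat.Prime ↔ ∃ s ∈ S, y = q * s)

/-- the product of `1 - 1 / p` over the primes `p ≤ s` which do not divide `q` -/
noncomputable def density (s q : ℕ) : ℝ :=
  ∏ p ∈ (range (s + 1)).filter (fun p => p.Prime ∧ ¬ p ∣ q), (1 - 1 / (p : ℝ))

open Classical in
/-- the number of the `s`-element subsets `S` of `V` with this property -/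
noncomputable def number (δ : ℝ) (q a s : ℕ) (V : Finset ℕ) : ℕ :=
  ((V.powersetCard s).filter (fun S => Isolated δ q a S)).card

/-- There are `c > 0` and `C` such that for every `k ≥ 1` there are `N` and `δ > 0` with the following property: for
all squarefree `q`, all `a` coprime to `q` and every set `V` of at least `N` natural numbers there is `s` with
`k ≤ s ≤ C k` such that at least the proportion `(c P / s) ^ s` of the `s`-element subsets `S` of `V` are isolated
patterns of primes, `P = density s q`. -/
theorem result : ∃ (c : ℝ) (C : ℕ), 0 < c ∧ ∀ k : ℕ, 1 ≤ k → ∃ (N : ℕ) (δ : ℝ), 0 < δ ∧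
    ∀ q a : ℕ, Squarefree q → a.Coprime q → ∀ V : Finset ℕ, N ≤ V.card → ∃ s : ℕ, k ≤ s ∧ s ≤ C * k ∧
      (c * density s q / s) ^ s * ((V.card).choose s : ℝ) ≤ number δ q a s V :=
  Pool.Agent.J6H13.RW.main_of Pool.Agent.J6H13.RW.stRW

end Pool.Agent.Results.MP_028722_nt.ProportionOfIsolatedPatterns
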