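import Mathlib
import Pool.Agent.J6H52.Branch.RecTree

/-!
# Record gaps between primes along all branches of regular subtrees of trees of real numbers

Let `f(x) = log x (log₂ x)² log₄ x / (log₃ x)²`, the size of the largest gaps between consecutive primes that are
known to occur up to `x`. Attach to every finite word over an alphabet with `k` letters a real number; the numbers
are ARBITRARY, but bounded along every infinite branch of the tree of words. This tree has a regular subtree, given
by variable words `w_0, w_1, …` (`w[a]` is the word `w` with the letter `a` in place of the variable), such that for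
every `m` and EVERY branch of the subtree, with the vertices `w_{J_0}[a_0] w_{J_1}[a_1] ⋯ w_{J_{l-1}}[a_{l-1}]`
(`l ≥ 1`, `J_0 < J_1 < …`, the first index being large), and for EVERY `m + 1` vertices of the branch the numbers
`y_0, …, y_m` attached to them (from the bottom to the top) form a strictly monotone or constant sequence, and both
vectors

`(|y_1 - y_0|, |y_2 - y_1|, …, |y_m - y_{m-1}|)` and `(|y_m - y_{m-1}|, …, |y_1 - y_0|)`

are limit points of the vectors of `m` consecutive prime gaps divided by `f`. In particular, for `m = 1`, all the
distances between the numbers attached to two comparable vertices are limit points of `(p_{n+1} - p_n) / f(p_n)`.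

More generally the number of the vertex `u` may also depend on the `p` vertices `t_1, …, t_p` chosen before the
first one, in an arbitrary way, for instance `y = ρ(t_1, …, t_p) x(u)` with an arbitrary positive function `ρ`. The
theorem holds for countably many labellings, residue classes and SCALES at once, with the same variable words: the
record function can be replaced by any slowly varying `H` with `log x ≤ H(x) = O(f(x))`, and if `H(x) = o(f(x))` the
numbers need not be bounded.

In the starting result `RecordSumSystem` of this folder the numbers are attached to finite sets of indices and are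
sums of a given sequence. Here they are arbitrary, and one regular subtree works for all of its continuum many
branches.

The proof. The theorem on tuples of limit points (`Pool.Agent.W126.RecSum.lpH` of the starting files, from the
Maynard–Tao theorem inside the windows of the record sieve) shows that every infinite chain of words contains `m + 1`
words with the required property. By the general principle `Pool.Agent.J6H52.Branch.principle` (ultrafilters `U_t` of
words which begin with `t`, from the Carlson–Simpson theorem: a property of chains holds or fails for `U`-almost all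
`y_1`, `U_{y_1}`-almost all `y_2`, …) it then holds for all chains of a regular subtree.
-/

set_option autoImplicit false

open Filter

namespace Pool.Agent.Results.MP_028722_nt.RecordGapsInTrees

/-- The record scale `f(x) = log x (log₂ x)² log₄ x / (log₃ x)²` (iterated natural logarithms). -/
noncomputable def f (x : ℝ) : ℝ :=
  Real.log x * (Real.log (Real.log x)) ^ 2 * Real.log (Real.log (Real.log (Real.log x))) /
    (Real.log (Real.log (Real.log x))) ^ 2

/-- The set of the vectors `v ∈ ℝ^m` such that for every `ε > 0` there are infinitely many `n` with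
`p_(n+i) ≡ r (mod q)` for `0 ≤ i ≤ m` and `|(p_(n+i+1) - p_(n+i)) / H(p_n) - v i| < ε` for
`0 ≤ i < m` (`p_n` is the prime with index `n`): the limit points of the vectors of `m` consecutive
gaps divided by `H`, along blocks of `m + 1` consecutive primes in the class `r` modulo `q`. -/
def LimitPoints (H : ℝ → ℝ) (m q r : ℕ) : Set (Fin m → ℝ) :=
  {v | ∀ ε : ℝ, 0 < ε → ∃ᶠ n : ℕ in atTop,
    (∀ i ≤ m, Nat.nth Nat.Prime (n + i) ≡ r [MOD q]) ∧
    ∀ i : Fin m, |((Nat.nth Nat.Prime (n + i + 1) : ℝ) - Nat.nth Nat.Prime (n + i)) /
      H (Nat.nth Nat.Prime n) - v i| < ε}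

/-- the vertex `w (J 0)[a 0] w (J 1)[a 1] ⋯ w (J (l - 1))[a (l - 1)]` of the subtree given by the variable words `w`
(`none` is the variable) -/
def vertex {k : ℕ} (w : ℕ → List (Option (Fin k))) (J : ℕ → ℕ) (a : ℕ → Fin k) (l : ℕ) :
    List (Fin k) :=
  (List.range l).flatMap fun i => (w (J i)).map fun o => o.getD (a i)

/-- For every index `s` let `H s` be a slowly varying function with `log x ≤ H s x`, let `q s` be a squarefree
modulus and `r s` a residue prime to it, and let `x s` attach a real number `x s t u` to every finite list `t` of
words and every word `u` over `k ≥ 1` letters. Suppose that `H s = o(f)`, or that `H s = O(f)` and for every `t` the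
numbers `x s t u` are bounded along every infinite branch of the tree of the words `u`. There are variable words `w 0, w 1, …` such that for all `s, p, m` there is `N` with: for every
branch of the subtree with first index `J 0 ≥ N`, and every `p + m + 1` vertices `t_1, …, t_p, u_0, …, u_m` of it (in
their order), the numbers `y i = x s (t_1, …, t_p) u_i`, `i = 0, …, m`, form a strictly monotone or constant
sequence, and the vector of the `m` numbers `|y (i + 1) - y i|` and the reversed vector are limit points of the vectors of `m`
consecutive prime gaps divided by `H s`, along the primes `≡ r s (mod q s)`. -/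
theorem result (k : ℕ) (hk : 0 < k) (H : ℕ → ℝ → ℝ)
    (hlow : ∀ s, ∀ᶠ x : ℝ in atTop, Real.log x ≤ H s x)
    (hslow : ∀ s, ∀ ε : ℝ, 0 < ε → ∀ᶠ x : ℝ in atTop, ∀ t : ℝ, x ≤ t → t ≤ 4 * x →
      |H s x / H s t - 1| < ε)
    (q r : ℕ → ℕ) (hq : ∀ s, Squarefree (q s)) (hr : ∀ s, (r s).Coprime (q s))
    (x : ℕ → List (List (Fin k)) → List (Fin k) → ℝ)
    (hc : ∀ s, (∀ c : ℝ, 0 < c → ∀ᶠ X : ℝ in atTop, H s X ≤ c * f X) ∨
      ((∃ C : ℝ, ∀ᶠ X : ℝ in atTop, H s X ≤ C * f X) ∧
        ∀ t (a : ℕ → Fin k), ∃ B : ℝ, ∀ n, |x s t ((List.range n).map a)| ≤ B)) :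
    ∃ w : ℕ → List (Option (Fin k)), (∀ i, none ∈ w i) ∧ ∀ s p m : ℕ, ∃ N : ℕ,
      ∀ J : ℕ → ℕ, StrictMono J → N ≤ J 0 → ∀ (a : ℕ → Fin k) (l : ℕ → ℕ), StrictMono l → 1 ≤ l 0 →
        let y : ℕ → ℝ := fun i => x s ((List.range p).map fun j => vertex w J a (l j))
          (vertex w J a (l (p + i)))
        ((∀ i < m, y i < y (i + 1)) ∨ (∀ i < m, y (i + 1) < y i) ∨ (∀ i < m, y (i + 1) = y i)) ∧
        (fun i : Fin m => |y (i + 1) - y i|) ∈ LimitPoints (H s) m (q s) (r s) ∧
        (fun i : Fin m => |y (m - i) - y (m - i - 1)|) ∈ LimitPoints (H s) m (q s) (r s) := by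
  obtain ⟨w, hw, h⟩ := Pool.Agent.J6H52.Branch.main_rec hk x H q r (fun s => ⟨hlow s, hslow s⟩)
    hq hr hc
  refine ⟨w, hw, fun s p m => ?_⟩
  obtain ⟨N, hN⟩ := h s p m
  exact ⟨N, fun J hJ hJN a l hl hl1 => hN J hJ hJN a l hl hl1 _ fun i => rfl⟩

/-- Special case: for every bounded real function on the words over `k ≥ 1` letters there are variable words
`w 0, w 1, …` such that for every branch of the subtree the distances of the numbers attached to any two vertices
of it are limit points of `(p_(n+1) - p_n) / f(p_n)`. -/
theorem distances (k : ℕ) (hk : 0 < k) (x : List (Fin k) → ℝ) (B : ℝ) (hB : ∀ u, |x u| ≤ B) :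
    ∃ w : ℕ → List (Option (Fin k)), (∀ i, none ∈ w i) ∧
      ∀ J : ℕ → ℕ, StrictMono J → ∀ (a : ℕ → Fin k) (l l' : ℕ), 1 ≤ l → l < l' →
        (fun _ : Fin 1 => |x (vertex w J a l') - x (vertex w J a l)|) ∈ LimitPoints f 1 1 1 := by
  obtain ⟨w, hw, h⟩ := result k hk (fun _ => f) (fun _ => by
      filter_upwards [Pool.Agent.H672R3.InfRec.scale_ev 1 one_pos] with x hx
      rw [one_mul] at hx
      exact hx) (fun _ ε hε => Pool.Agent.H312R2.RG.C3.ff_slow ε hε) (fun _ => 1) (fun _ => 1)
    (fun _ => squarefree_one) (fun _ => Nat.coprime_one_right 1) (fun _ _ => x)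
    (fun _ => Or.inr ⟨⟨1, Eventually.of_forall fun x => by rw [one_mul]⟩,
      fun _ a => ⟨B, fun n => hB _⟩⟩)
  obtain ⟨N, hN⟩ := h 0 0 1
  refine ⟨fun i => w (N + i), fun i => hw _, fun J hJ a l l' hl hll => ?_⟩
  have h1 := (hN (fun i => N + J i) (fun i j hij => Nat.add_lt_add_left (hJ hij) N)
    (Nat.le_add_right _ _) a (fun i => if i = 0 then l else l' + i - 1)
    (by
      refine strictMono_nat_of_lt_succ fun i => ?_
      rcases Nat.eq_zero_or_pos i with rfl | hi
      · simp only [if_true, zero_add, one_ne_zero, if_false]
        omega
      · rw [if_neg (by omega), if_neg (by omega)]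
        omega) (by simp only [if_true]; exact hl)).2.1
  convert h1 using 1
  funext i
  have hi : i = 0 := Subsingleton.elim _ _
  subst hi
  simp only [Fin.val_zero, zero_add, one_ne_zero, if_false, if_true, Nat.add_sub_cancel]
  rfl

end Pool.Agent.Results.MP_028722_nt.RecordGapsInTrees
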