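import Pool.Agent.J6H15.SM.Cra
import Pool.Agent.J6H15.SQ.Gen

set_option autoImplicit false

/-!
# MP_028722_nt: Cramér's bound in random models of the primes with a growing sieve

The integers are decided one after the other.  No `m` with a prime factor `q ≤ z(m)` is chosen; the conditional
probability of choosing `m + 1` (without such prime factors), given the past, is asymptotic to
`∏_{q ≤ z(m + 1)} (1 - 1/q)⁻¹ / log m`.  No independence and no rate is assumed; `z` is nondecreasing.

We prove Cramér's bound `O(log²)` for the gaps in all such models sieved up to `z(n) ≤ (log n)^θ`, for EVERY `θ < 1`;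
and the bound `(log n)^(2 + ε)`, for every `ε > 0`, if `z(n) ≤ (log n)^(1 + o(1))`, for example for a sieve up to
`log n` as in the model of Granville.  For all `z(n) ≤ n^(o(1))` the gap after `m` is `O(log² m) + z(2 m)^(2 + ε)`.

Proof.  The sum of the densities over the block `(m, m + L]`, `L = C (log m)^E`, is at least `4 log m` for a large
`C`: on the part of the block where `z` is at most a small power of `log m` this is the fundamental lemma of the
sieve, and on the other part the linear sieve (the sifting level is at most `L^ζ` with `ζ < 1/2`) and the theorem of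
Mertens.  Then the conditional Borel–Cantelli lemma applies, as `4/2 > 1`.

Modules: `Pool/Agent/J6H15/SM`, `Pool/Agent/J6H15/SQ` (helper15), and the linear sieve of the starting library (`Pool/Agent/K3h31/LP/Sieve`).
-/

open MeasureTheory Filter
open scoped Topology

namespace Pool.Agent.Results.MP_028722_nt.SievedRandomModels

/-- no prime `q ≤ z m` divides `m` -/
def Rough (z : ℕ → ℕ) (m : ℕ) : Prop := ∀ q : ℕ, q.Prime → q ≤ z m → ¬ q ∣ m

/-- `∏ (1 - 1/q)⁻¹` over the primes `q ≤ x` -/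
noncomputable def W (x : ℕ) : ℝ := ∏ q ∈ (Finset.Icc 1 x).filter Nat.Prime, (1 - (q : ℝ)⁻¹)⁻¹

/-- a sequential random model of the primes sieved by the primes `q ≤ z(m)`; `S n` is the event that `n` is
chosen -/
structure IsModel {Ω : Type} [mΩ : MeasurableSpace Ω] (μ : Measure Ω) (ℱ : Filtration ℕ mΩ)
    (S : ℕ → Set Ω) (z : ℕ → ℕ) : Prop where
  /-- whether `n` is chosen is known at the time `n` -/
  adapted : ∀ n, MeasurableSet[ℱ n] (S n)
  /-- no `n` with a prime factor `q ≤ z n` is chosen -/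
  sieved : ∀ n, ¬ Rough z n → S n = ∅
  /-- the conditional probability of `S (n + 1)` given `ℱ n` is asymptotic to `W (z (n + 1)) / log n`
  along the `n` with `Rough z (n + 1)` -/
  density : ∀ᵐ ω ∂μ, Tendsto (fun n : ℕ =>
    (μ[(S (n + 1)).indicator (fun _ => (1 : ℝ)) | ℱ n]) ω * Real.log n / W (z (n + 1)))
    (atTop ⊓ 𝓟 {n : ℕ | Rough z (n + 1)}) (𝓝 1)

lemma rough_iff (z : ℕ → ℕ) (m : ℕ) : Rough z m ↔ Pool.Agent.J6H13.UM.Rough Set.univ z m :=
  ⟨fun h q _ hq => h q hq, fun h q hq => h q (Set.mem_univ q) hq⟩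

lemma W_eq (x : ℕ) : Pool.Agent.J6H13.UM.W Set.univ x = W x := by
  classical
  unfold W Pool.Agent.J6H13.UM.W
  congr 1
  ext q
  simp only [Finset.mem_filter]
  exact ⟨fun h => ⟨h.1, h.2.1⟩, fun h => ⟨h.1, h.2, Set.mem_univ q⟩⟩

/-- **Cramér's bound in sieved random models.**  (1) Let `E ≥ 2` and `θ < E / 2` be real.  There is `C` such that for every
nondecreasing `z` with `z(n) ≤ (log n)^θ` for large `n`, in every sequential random model with sieve `z`, almost
surely, for all large `m` there is a chosen integer in `(m, m + C (log m)^E]`.  (2) For every `ε > 0` there is `C` such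
that for every nondecreasing `z` with `z(n) ≤ n^(o(1))`, in every sequential random model with sieve `z`, almost surely,
for all large `m` there is a chosen integer in `(m, m + C (log m)² + z(2 m)^(2 + ε)]`. -/
theorem result :
    (∀ θ E : ℝ, 2 ≤ E → 2 * θ < E → ∃ C : ℝ, 0 < C ∧
      ∀ z : ℕ → ℕ, Monotone z → (∀ᶠ n : ℕ in atTop, (z n : ℝ) ≤ Real.log n ^ θ) →
      ∀ {Ω : Type} [mΩ : MeasurableSpace Ω] (μ : Measure Ω) [IsProbabilityMeasure μ]
        (ℱ : Filtration ℕ mΩ) (S : ℕ → Set Ω), IsModel μ ℱ S z →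
        ∀ᵐ ω ∂μ, ∀ᶠ m : ℕ in atTop, ∃ n, ω ∈ S n ∧ m < n ∧ (n : ℝ) ≤ m + C * Real.log m ^ E) ∧
    (∀ ε : ℝ, 0 < ε → ∃ C : ℝ, 0 < C ∧
      ∀ z : ℕ → ℕ, Monotone z → (∀ δ : ℝ, 0 < δ → ∀ᶠ n : ℕ in atTop, (z n : ℝ) ≤ (n : ℝ) ^ δ) →
      ∀ {Ω : Type} [mΩ : MeasurableSpace Ω] (μ : Measure Ω) [IsProbabilityMeasure μ]
        (ℱ : Filtration ℕ mΩ) (S : ℕ → Set Ω), IsModel μ ℱ S z →
        ∀ᵐ ω ∂μ, ∀ᶠ m : ℕ in atTop, ∃ n, ω ∈ S n ∧ m < n ∧
          (n : ℝ) ≤ m + C * Real.log m ^ 2 + (z (2 * m) : ℝ) ^ (2 + ε)) := by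
  constructor
  · intro θ E hE hθ
    obtain ⟨C, hC, H⟩ := Pool.Agent.J6H15.SM.cra_main θ E hE hθ
    refine ⟨C, hC, ?_⟩
    intro z hz hzθ Ω mΩ μ _ ℱ S hM
    refine H z hz hzθ hM.adapted (fun n hn => hM.sieved n (fun hc => hn ((rough_iff z n).1 hc))) ?_
    filter_upwards [hM.density] with ω hω
    have e : {n : ℕ | Pool.Agent.J6H13.UM.Rough Set.univ z (n + 1)} = {n : ℕ | Rough z (n + 1)} := by
      ext n
      exact (rough_iff z (n + 1)).symm
    rw [e]
    simp only [W_eq]
    exact hω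
  · intro ε hε
    obtain ⟨C, hC, H⟩ := Pool.Agent.J6H15.SQ.gen_main ε hε
    refine ⟨C, hC, ?_⟩
    intro z hz hzs Ω mΩ μ _ ℱ S hM
    refine H z hz hzs hM.adapted (fun n hn => hM.sieved n (fun hc => hn ((rough_iff z n).1 hc))) ?_
    filter_upwards [hM.density] with ω hω
    have e : {n : ℕ | Pool.Agent.J6H13.UM.Rough Set.univ z (n + 1)} = {n : ℕ | Rough z (n + 1)} := by
      ext n
      exact (rough_iff z (n + 1)).symm
    rw [e]
    simp only [W_eq]
    exact hω

end Pool.Agent.Results.MP_028722_nt.SievedRandomModels
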